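import Mathlib
import Pool.Agent.H9.Isotriv.Defs
import Pool.Agent.H9.Isotriv.Geo

/-!
# A contractible surface `{p = 0} ⊂ ℂ³` whose polynomial `p` is not isotrivial

`p = z(z-1)x - y²(1-z) - y⁴z`.  The zero fibre is `{zu = y², (1-z)v = y⁴}`, `x = -(u+v)`, and it
retracts to the `z`-axis by `(u, v, y, z) ↦ (s²u, s⁴v, sy, z)`.  The fibres `X_c`, `c ≠ 0`, are
pairwise non-isomorphic.
-/

namespace Pool.Agent.Results.MP_89b417_ag.ContractibleNotIsotrivial

open MvPolynomial Pool.Agent.H9.Isotriv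

/-- There is an irreducible polynomial `p ∈ ℂ[x₁, x₂, x₃]` with contractible zero set which is not
isotrivial; in fact the fibres `p⁻¹(c)`, `c ≠ 0`, are pairwise non-isomorphic. -/
theorem result : ∃ p : MvPolynomial (Fin 3) ℂ, Irreducible p ∧ ContractibleSpace (Fibre p 0) ∧
    ¬ IsIsotrivial p ∧
    ∀ c c' : ℂ, c ≠ 0 → c' ≠ 0 → IsoVar (Fibre p c) (Fibre p c') → c = c' :=
  ⟨pp, main⟩

end Pool.Agent.Results.MP_89b417_ag.ContractibleNotIsotrivial
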